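import Pool.Agent.Q94.ALK

namespace Pool.Agent.Results.MP_11cc5c_an.MeanTransformPreservers

noncomputable section

universe u

variable {H : Type u} [NormedAddCommGroup H] [InnerProductSpace ℂ H] [CompleteSpace H]

/-- `T = V|T|` is the polar decomposition: `V` is a partial isometry with `ker V = ker T`. -/
def IsPolar (T V : H →L[ℂ] H) : Prop :=
  T = V * CFC.abs T ∧ V * star V * V = V ∧ ∀ x : H, V x = 0 ↔ T x = 0

theorem exists_polar (T : H →L[ℂ] H) : ∃ V : H →L[ℂ] H, IsPolar T V :=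
  Q94.MA.exists_polar T

/-- The partial isometry `V` of the polar decomposition of `T` (it is unique, see `result`). -/
def pol (T : H →L[ℂ] H) : H →L[ℂ] H := (exists_polar T).choose

/-- `|T|^s` by the continuous functional calculus (so `|T|^0 = 1`). -/
def absPow (T : H →L[ℂ] H) (s : ℝ) : H →L[ℂ] H := cfc (fun t : ℝ => t ^ s) (CFC.abs T)

/-- The Aluthge transform with parameter `μ`, that is `|T|^μ V |T|^(1-μ)`. -/
def aluthge (μ : ℝ) (T : H →L[ℂ] H) : H →L[ℂ] H := absPow T μ * pol T * absPow T (1 - μ)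

/-- The mean transform `(V|T| + |T|V)/2`. -/
def meanTransform (T : H →L[ℂ] H) : H →L[ℂ] H :=
  (1 / 2 : ℝ) • (pol T * CFC.abs T + CFC.abs T * pol T)

/-- The transform `M_l(T)`, the half sum of the Aluthge transforms with parameters `l`, `1-l`. -/
def M (l : ℝ) (T : H →L[ℂ] H) : H →L[ℂ] H := (1 / 2 : ℝ) • (aluthge l T + aluthge (1 - l) T)

/-- The mean-Aluthge transform: the mean transform of the Aluthge transform. -/
def meanAluthge (T : H →L[ℂ] H) : H →L[ℂ] H := meanTransform (aluthge (1 / 2) T)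

/-- `Φ(T) = c U T U^*` with `c ≠ 0` and `U` unitary. -/
def Standard (Φ : (H →L[ℂ] H) ≃ₗ[ℂ] (H →L[ℂ] H)) : Prop :=
  ∃ (c : ℂ) (U : unitary (H →L[ℂ] H)), c ≠ 0 ∧
    ∀ T : H →L[ℂ] H, Φ T = c • ((U : H →L[ℂ] H) * T * star (U : H →L[ℂ] H))

theorem result :
    (∀ T : H →L[ℂ] H, IsPolar T (pol T) ∧ ∀ V : H →L[ℂ] H, IsPolar T V → V = pol T) ∧
    (∀ T : H →L[ℂ] H, M 0 T = meanTransform T) ∧
    (∀ (l : ℝ), 0 ≤ l → l ≤ 1 / 2 → ∀ Φ : (H →L[ℂ] H) ≃ₗ[ℂ] (H →L[ℂ] H),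
      ((∀ T : H →L[ℂ] H, Φ (M l T) = M l (Φ T)) ↔ Standard Φ)) ∧
    (∀ Φ : (H →L[ℂ] H) ≃ₗ[ℂ] (H →L[ℂ] H),
      ((∀ T : H →L[ℂ] H, Φ (meanAluthge T) = meanAluthge (Φ T)) ↔ Standard Φ)) := by
  refine ⟨fun T => ⟨(exists_polar T).choose_spec, fun V hV => ?_⟩, fun T => Q94.AL.M_zero T,
    fun l h0 h1 Φ => ?_, fun Φ => ?_⟩
  · exact Q94.MA.polar_unique T (pol T) V (exists_polar T).choose_spec hV
  · exact Q94.AL.main (Q94.AL.M_good h0 h1) Φ
  · exact Q94.AL.main Q94.AL.hatD_good Φ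

end

end Pool.Agent.Results.MP_11cc5c_an.MeanTransformPreservers
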